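import Pool.Agent.H923R2.FP.Stubs

set_option autoImplicit false

namespace Pool.Agent.H923R2.FP.T_PHI

open Pool.Agent.H923R2.FP MeasureTheory

noncomputable def G (θ : ℝ) : ℝ := (θ - Real.sin θ * Real.cos θ) / Real.pi

theorem G_deriv (θ : ℝ) : HasDerivAt G (2 * Real.sin θ ^ 2 / Real.pi) θ := by
  have h1 : HasDerivAt (fun θ : ℝ => Real.sin θ * Real.cos θ)
      (Real.cos θ * Real.cos θ + Real.sin θ * (-Real.sin θ)) θ :=
    (Real.hasDerivAt_sin θ).mul (Real.hasDerivAt_cos θ)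
  have h2 := ((hasDerivAt_id θ).sub h1).div_const Real.pi
  refine h2.congr_deriv ?_
  have h3 := Real.sin_sq_add_cos_sq θ
  congr 1
  nlinarith

theorem G_cont : Continuous G := by
  unfold G
  fun_prop

theorem G_zero : G 0 = 0 := by simp [G]

theorem G_pi : G Real.pi = 1 := by
  simp [G, Real.pi_ne_zero]

theorem G_strict : StrictMonoOn G (Set.Icc 0 Real.pi) := by
  apply strictMonoOn_of_deriv_pos (convex_Icc _ _) G_cont.continuousOn
  intro x hx
  rw [interior_Icc] at hx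
  rw [(G_deriv x).deriv]
  have := Real.sin_pos_of_pos_of_lt_pi hx.1 hx.2
  have := Real.pi_pos
  positivity

theorem G_mem {θ : ℝ} (h : θ ∈ Set.Icc 0 Real.pi) : G θ ∈ Set.Icc (0 : ℝ) 1 := by
  have h0 : (0 : ℝ) ∈ Set.Icc 0 Real.pi := ⟨le_rfl, Real.pi_pos.le⟩
  have h1 : Real.pi ∈ Set.Icc 0 Real.pi := ⟨Real.pi_pos.le, le_rfl⟩
  constructor
  · rw [← G_zero]; exact G_strict.monotoneOn h0 h h.1
  · rw [← G_pi]; exact G_strict.monotoneOn h h1 h.2

noncomputable def Gm : Set.Icc (0 : ℝ) Real.pi → unitInterval := fun θ => ⟨G θ.1, G_mem θ.2⟩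

theorem Gm_inj : Function.Injective Gm := by
  intro a b h
  have h' : G a.1 = G b.1 := congrArg Subtype.val h
  exact Subtype.ext (G_strict.injOn a.2 b.2 h')

theorem Gm_surj : Function.Surjective Gm := by
  intro y
  have h := intermediate_value_Icc Real.pi_pos.le (G_cont.continuousOn (s := Set.Icc 0 Real.pi))
  rw [G_zero, G_pi] at h
  obtain ⟨θ, hθ, he⟩ := h y.2
  exact ⟨⟨θ, hθ⟩, Subtype.ext he⟩

noncomputable def Gh : Set.Icc (0 : ℝ) Real.pi ≃ₜ unitInterval :=
  Continuous.homeoOfEquivCompactToT2 (f := Equiv.ofBijective Gm ⟨Gm_inj, Gm_surj⟩)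
    (by
      show Continuous Gm
      exact Continuous.subtype_mk (G_cont.comp continuous_subtype_val) _)

noncomputable def ph : C(unitInterval, ℝ) :=
  ⟨fun x => 2 * Real.cos ((Gh.symm x : Set.Icc (0 : ℝ) Real.pi) : ℝ), by
    have := Gh.symm.continuous
    fun_prop⟩

theorem ph_apply (θ : ℝ) (h : θ ∈ Set.Icc 0 Real.pi) :
    ph ⟨G θ, G_mem h⟩ = 2 * Real.cos θ := by
  have h1 : Gh ⟨θ, h⟩ = ⟨G θ, G_mem h⟩ := rfl
  show 2 * Real.cos ((Gh.symm ⟨G θ, G_mem h⟩ : Set.Icc (0 : ℝ) Real.pi) : ℝ) = _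
  rw [← h1, Homeomorph.symm_apply_apply]

theorem sin_Uc (θ : ℝ) : ∀ m : ℕ, Real.sin θ * Uc (2 * Real.cos θ) m = Real.sin ((m + 1) * θ)
  | 0 => by simp [Uc]
  | 1 => by
    simp only [Uc, Nat.cast_one]
    rw [show ((1 : ℝ) + 1) * θ = 2 * θ by ring, Real.sin_two_mul]
    ring
  | m + 2 => by
    have h1 := sin_Uc θ (m + 1)
    have h2 := sin_Uc θ m
    simp only [Uc]
    have h3 : Real.sin θ * (2 * Real.cos θ * Uc (2 * Real.cos θ) (m + 1) - Uc (2 * Real.cos θ) m)
        = 2 * Real.cos θ * (Real.sin θ * Uc (2 * Real.cos θ) (m + 1))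
          - Real.sin θ * Uc (2 * Real.cos θ) m := by ring
    rw [h3, h1, h2]
    push_cast
    have e1 : ((m : ℝ) + 2 + 1) * θ = ((m : ℝ) + 1 + 1) * θ + θ := by ring
    have e2 : ((m : ℝ) + 1) * θ = ((m : ℝ) + 1 + 1) * θ - θ := by ring
    rw [e1, e2, Real.sin_add, Real.sin_sub]
    ring

theorem Uc_cont (m : ℕ) : Continuous fun x : ℝ => Uc x m := by
  induction m using Nat.strong_induction_on with
  | _ m ih =>
    match m with
    | 0 => simpa [Uc] using continuous_const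
    | 1 => simp only [Uc]; exact continuous_id
    | m + 2 =>
      simp only [Uc]
      exact (continuous_id.mul (ih (m + 1) (by omega))).sub (ih m (by omega))

theorem int_sin (m : ℕ) (hm : m ≠ 0) :
    ∫ θ in (0 : ℝ)..Real.pi, Real.sin ((m + 1) * θ) * Real.sin θ = 0 := by
  have hm' : (m : ℝ) ≠ 0 := by exact_mod_cast hm
  have hm2 : (m : ℝ) + 2 ≠ 0 := by positivity
  have hd : ∀ θ : ℝ, HasDerivAt
      (fun θ : ℝ => Real.sin (m * θ) / (2 * m) - Real.sin ((m + 2) * θ) / (2 * (m + 2)))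
      (Real.sin ((m + 1) * θ) * Real.sin θ) θ := by
    intro θ
    have h1 : HasDerivAt (fun θ : ℝ => (m : ℝ) * θ) m θ := by
      simpa using (hasDerivAt_id θ).const_mul (m : ℝ)
    have h2 : HasDerivAt (fun θ : ℝ => ((m : ℝ) + 2) * θ) (m + 2) θ := by
      simpa using (hasDerivAt_id θ).const_mul ((m : ℝ) + 2)
    have h3 := (h1.sin.div_const (2 * (m : ℝ))).sub (h2.sin.div_const (2 * ((m : ℝ) + 2)))
    refine h3.congr_deriv ?_
    have e1 : (m : ℝ) * θ = (m + 1) * θ - θ := by ring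
    have e2 : ((m : ℝ) + 2) * θ = (m + 1) * θ + θ := by ring
    rw [e1, e2, Real.cos_sub, Real.cos_add]
    field_simp
    ring
  rw [intervalIntegral.integral_eq_sub_of_hasDerivAt (fun θ _ => hd θ)]
  · have s1 : Real.sin ((m : ℝ) * Real.pi) = 0 := Real.sin_nat_mul_pi m
    have s2 : Real.sin (((m : ℝ) + 2) * Real.pi) = 0 := by
      have := Real.sin_nat_mul_pi (m + 2)
      push_cast at this
      exact this
    rw [s1, s2]
    simp
  · apply Continuous.intervalIntegrable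
    fun_prop

theorem t_PHI : S_PHI := by
  refine ⟨ph, ?_, ?_, ?_⟩
  · intro x
    show |2 * Real.cos _| ≤ 2
    rw [abs_mul, abs_two]
    have := Real.abs_cos_le_one ((Gh.symm x : Set.Icc (0 : ℝ) Real.pi) : ℝ)
    linarith
  · intro x y h
    have h1 : Real.cos ((Gh.symm x : Set.Icc (0 : ℝ) Real.pi) : ℝ)
        = Real.cos ((Gh.symm y : Set.Icc (0 : ℝ) Real.pi) : ℝ) := by
      have h' : 2 * Real.cos ((Gh.symm x : Set.Icc (0 : ℝ) Real.pi) : ℝ)
        = 2 * Real.cos ((Gh.symm y : Set.Icc (0 : ℝ) Real.pi) : ℝ) := h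
      linarith
    have h2 := Real.injOn_cos (Gh.symm x).2 (Gh.symm y).2 h1
    exact Gh.symm.injective (Subtype.ext h2)
  · intro m hm
    let g : ℝ → ℝ := fun u => Uc (ph (Set.projIcc (0 : ℝ) 1 zero_le_one u)) m
    have hg : Continuous g := (Uc_cont m).comp (ph.continuous.comp continuous_projIcc)
    have h1 : ∫ x : unitInterval, Uc (ph x) m = ∫ u in (0 : ℝ)..1, g u := by
      rw [intervalIntegral.integral_of_le zero_le_one, ← integral_Icc_eq_integral_Ioc]
      have h2 := integral_subtype_comap (μ := volume) (measurableSet_Icc : MeasurableSet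
        (Set.Icc (0 : ℝ) 1)) g
      rw [← h2]
      apply integral_congr_ae
      refine Filter.Eventually.of_forall fun x => ?_
      show Uc (ph x) m = Uc (ph (Set.projIcc (0 : ℝ) 1 zero_le_one x.1)) m
      rw [Set.projIcc_val]
    rw [h1]
    have h3 := intervalIntegral.integral_comp_mul_deriv (a := 0) (b := Real.pi) (f := G)
      (f' := fun θ => 2 * Real.sin θ ^ 2 / Real.pi) (g := g) (fun θ _ => G_deriv θ)
      (by fun_prop) hg
    rw [G_zero, G_pi] at h3
    rw [← h3]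
    have h4 : ∫ x in (0 : ℝ)..Real.pi, (g ∘ G) x * (2 * Real.sin x ^ 2 / Real.pi)
        = ∫ x in (0 : ℝ)..Real.pi, (2 / Real.pi) * (Real.sin ((m + 1) * x) * Real.sin x) := by
      apply intervalIntegral.integral_congr
      intro θ hθ
      rw [Set.uIcc_of_le Real.pi_pos.le] at hθ
      show g (G θ) * (2 * Real.sin θ ^ 2 / Real.pi) = _
      have h5 : g (G θ) = Uc (2 * Real.cos θ) m := by
        show Uc (ph (Set.projIcc (0 : ℝ) 1 zero_le_one (G θ))) m = _
        rw [Set.projIcc_of_mem zero_le_one (G_mem hθ), ph_apply θ hθ]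
      show g (G θ) * (2 * Real.sin θ ^ 2 / Real.pi)
        = 2 / Real.pi * (Real.sin ((m + 1) * θ) * Real.sin θ)
      rw [h5, ← sin_Uc θ m]
      ring
    rw [h4, intervalIntegral.integral_const_mul, int_sin m hm, mul_zero]

end Pool.Agent.H923R2.FP.T_PHI
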